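import Mathlib

/-!
# Binary counter facts
-/

namespace Q222.MS

/-- `j` is the lowest zero bit of `m`. -/
def Low (m j : ℕ) : Prop := (∀ c < j, m.testBit c = true) ∧ m.testBit j = false

theorem Low.unique {m j j' : ℕ} (h : Low m j) (h' : Low m j') : j = j' := by
  rcases lt_trichotomy j j' with hl | hl | hl
  · have := h'.1 j hl
    rw [h.2] at this
    exact absurd this (by decide)
  · exact hl
  · have := h.1 j' hl
    rw [h'.2] at this
    exact absurd this (by decide)

theorem Low.succ {m j : ℕ} (h : Low m j) (c : ℕ) :
    (m + 1).testBit c = if c < j then false else if c = j then true else m.testBit c := by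
  induction j generalizing m c with
  | zero =>
    have h0 : m.testBit 0 = false := h.2
    have hm : m % 2 = 0 := by
      rw [Nat.testBit_zero] at h0
      simp at h0
      omega
    cases c with
    | zero =>
      simp [Nat.testBit_zero]
      omega
    | succ c =>
      simp only [Nat.testBit_succ]
      have : (m + 1) / 2 = m / 2 := by omega
      rw [this]
      simp
  | succ j ih =>
    have h0 : m.testBit 0 = true := h.1 0 (by omega)
    have hm : m % 2 = 1 := by
      rw [Nat.testBit_zero] at h0
      simpa using h0
    have hl : Low (m / 2) j := by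
      refine ⟨fun c hc => ?_, ?_⟩
      · have := h.1 (c + 1) (by omega)
        rwa [Nat.testBit_succ] at this
      · have := h.2
        rwa [Nat.testBit_succ] at this
    cases c with
    | zero =>
      simp [Nat.testBit_zero]
      omega
    | succ c =>
      simp only [Nat.testBit_succ]
      have : (m + 1) / 2 = m / 2 + 1 := by omega
      rw [this, ih hl c]
      by_cases h1 : c < j
      · simp [h1]
      · by_cases h2 : c = j
        · simp [h2]
        · simp [h1, h2]

theorem exists_low (m : ℕ) : ∃ j, Low m j := by
  have hex : ∃ j, m.testBit j = false := ⟨m, Nat.testBit_lt_two_pow Nat.lt_two_pow_self⟩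
  classical
  refine ⟨Nat.find hex, ?_, Nat.find_spec hex⟩
  intro c hc
  have := Nat.find_min hex hc
  simpa using this

/-- The lowest zero bit. -/
noncomputable def low (m : ℕ) : ℕ := (exists_low m).choose

theorem low_spec (m : ℕ) : Low m (low m) := (exists_low m).choose_spec

theorem all_bits {m k : ℕ} (h : ∀ c < k, m.testBit c = true) : 2 ^ k - 1 ≤ m := by
  have : m % 2 ^ k = 2 ^ k - 1 := by
    apply Nat.eq_of_testBit_eq
    intro i
    rw [Nat.testBit_mod_two_pow, Nat.testBit_two_pow_sub_one]
    by_cases hi : i < k
    · simp [hi, h i hi]
    · simp [hi]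
  have h2 := Nat.mod_le m (2 ^ k)
  omega

theorem low_lt {m k : ℕ} (h : m < 2 ^ k - 1) : low m < k := by
  by_contra hc
  push Not at hc
  have := all_bits (m := m) (k := k) (fun c hc' => (low_spec m).1 c (lt_of_lt_of_le hc' hc))
  omega

theorem testBit_full {k c : ℕ} (hc : c < k) : (2 ^ k - 1).testBit c = true := by
  rw [Nat.testBit_two_pow_sub_one]
  simpa using hc

end Q222.MS
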