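import Mathlib

/-!
# Shift spaces, step, deterministic presentations
-/

namespace Q222.MS

/-- The factor `x_i x_{i+1} … x_{i+n-1}` of a bi-infinite sequence. -/
def factor {A : Type} (x : ℤ → A) (i : ℤ) (n : ℕ) : List A :=
  (List.range n).map (fun j : ℕ => x (i + (j : ℤ)))

/-- `X_F`: the bi-infinite sequences avoiding every word of `F`. -/
def Avoiding {A : Type} (F : Set (List A)) : Set (ℤ → A) :=
  {x | ∀ w ∈ F, ∀ i : ℤ, factor x i w.length ≠ w}

/-- `X` is `M`-step: `X = X_F` for a set `F` of words all of length `M + 1`. -/
def IsStep {A : Type} (X : Set (ℤ → A)) (M : ℕ) : Prop :=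
  ∃ F : Set (List A), (∀ w ∈ F, w.length = M + 1) ∧ X = Avoiding F

/-- `X` is a shift of finite type. -/
def IsSFT {A : Type} (X : Set (ℤ → A)) : Prop := ∃ M, IsStep X M

/-- The minimum step of an SFT. -/
noncomputable def minStep {A : Type} (X : Set (ℤ → A)) : ℕ := sInf {M | IsStep X M}

/-- A directed graph with vertex type `V` and edge type `E` (multiple edges allowed), with edges
labelled in `A`. -/
structure LGraph (V E A : Type) where
  src : E → V
  tgt : E → V
  lab : E → A

/-- The set of label sequences of the bi-infinite walks of `G`. -/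
def LGraph.shift {V E A : Type} (G : LGraph V E A) : Set (ℤ → A) :=
  {x | ∃ e : ℤ → E, (∀ i, G.tgt (e i) = G.src (e (i + 1))) ∧ ∀ i, G.lab (e i) = x i}

/-- `G` is deterministic: at every vertex and for every symbol, at most one outgoing edge carries
that symbol. -/
def LGraph.Det {V E A : Type} (G : LGraph V E A) : Prop :=
  ∀ e e' : E, G.src e = G.src e' → G.lab e = G.lab e' → e = e'

/-- `X` has a deterministic presentation by a finite graph with `n` vertices. -/
def HasDet {A : Type} (X : Set (ℤ → A)) (n : ℕ) : Prop :=
  ∃ (V E : Type) (_ : Fintype V) (_ : Fintype E) (G : LGraph V E A),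
    Fintype.card V = n ∧ G.Det ∧ G.shift = X

/-- `s_d(X)`: the least number of vertices of a deterministic presentation of `X`. -/
noncomputable def sd {A : Type} (X : Set (ℤ → A)) : ℕ := sInf {n | HasDet X n}

end Q222.MS
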