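import Pool.Agent.Q222.MS.Pres

/-!
# A lower bound for the number of vertices of a deterministic presentation of `X K`
-/

namespace Q222.MS

section
variable {V E A : Type} (G : LGraph V E A)

open Classical in
/-- The partial transition function of a graph. -/
noncomputable def LGraph.nx (v : V) (l : A) : Option V :=
  if h : ∃ e, G.src e = v ∧ G.lab e = l then some (G.tgt h.choose) else none

variable {G}

theorem nx_edge (hG : G.Det) (e : E) : G.nx (G.src e) (G.lab e) = some (G.tgt e) := by
  have h : ∃ e', G.src e' = G.src e ∧ G.lab e' = G.lab e := ⟨e, rfl, rfl⟩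
  unfold LGraph.nx
  rw [dif_pos h]
  congr 2
  exact hG _ _ h.choose_spec.1 h.choose_spec.2

theorem nx_some {v v' : V} {l : A} (h : G.nx v l = some v') :
    ∃ e, G.src e = v ∧ G.lab e = l ∧ G.tgt e = v' := by
  unfold LGraph.nx at h
  split_ifs at h with hc
  exact ⟨hc.choose, hc.choose_spec.1, hc.choose_spec.2, Option.some_injective _ h⟩

theorem mem_shift_iff' (hG : G.Det) (x : ℤ → A) :
    x ∈ G.shift ↔ ∃ v : ℤ → V, ∀ i, G.nx (v i) (x i) = some (v (i + 1)) := by
  constructor
  · rintro ⟨e, he, hx⟩
    refine ⟨fun i => G.src (e i), fun i => ?_⟩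
    show G.nx (G.src (e i)) (x i) = some (G.src (e (i + 1)))
    rw [← hx i, nx_edge hG, he i]
  · rintro ⟨v, hv⟩
    choose e he using fun i => nx_some (hv i)
    refine ⟨e, fun i => ?_, fun i => (he i).2.1⟩
    rw [(he i).2.2, (he (i + 1)).1]

end

/-- The shortened sequence: the letters of the counter word with indices `m ≤ t < m'` deleted. -/
noncomputable def short (K m m' : ℕ) : ℤ → Lt K := fun j =>
  if j ≤ m then bad K j else bad K (j + (m' - m : ℕ))

theorem short_mem {K m m' : ℕ} (h : m < m') (hm' : m' ≤ 2 ^ (K + 1) - 1) : short K m m' ∈ X K := by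
  have h2 := two_le K
  refine ⟨fun i => ?_, ?_⟩
  · unfold short
    by_cases h1 : i + 1 ≤ m
    · have h3 : i ≤ m := by omega
      rw [if_pos h1, if_pos h3]
      exact ok_bad K i
    · rw [if_neg h1]
      by_cases h3 : i ≤ m
      · have h4 : i = m := by omega
        rw [if_pos h3]
        subst h4
        -- the pair (bad m, bad (m' + 1))
        have e1 : (m : ℤ) + 1 + ((m' - m : ℕ) : ℤ) = m' + 1 := by omega
        rw [e1]
        have a1 : ¬ ((m : ℤ) < 0) := by omega
        have a2 : (m : ℤ) < ((2 ^ (K + 1) : ℕ) : ℤ) := by omega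
        have b1 : ¬ ((m' : ℤ) + 1 < 0) := by omega
        have b2 : ¬ ((m' : ℤ) + 1 = 0) := by omega
        unfold bad
        simp only [if_neg a1, if_pos a2, if_neg b1, if_neg b2]
        by_cases c1 : (m : ℤ) = 0
        · rw [if_pos c1]
          by_cases c2 : (m' : ℤ) + 1 < ((2 ^ (K + 1) : ℕ) : ℤ)
          · rw [if_pos c2]; simp [ul, ok]
          · have c3 : (m' : ℤ) + 1 = ((2 ^ (K + 1) : ℕ) : ℤ) := by omega
            rw [if_neg c2, if_pos c3]; simp [ok]
        · rw [if_neg c1]
          by_cases c2 : (m' : ℤ) + 1 < ((2 ^ (K + 1) : ℕ) : ℤ)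
          · rw [if_pos c2]; simp [ul, ok]
          · have c3 : (m' : ℤ) + 1 = ((2 ^ (K + 1) : ℕ) : ℤ) := by omega
            rw [if_neg c2, if_pos c3]; simp [ul, ok]
      · rw [if_neg h3]
        have e1 : i + 1 + ((m' - m : ℕ) : ℤ) = i + ((m' - m : ℕ) : ℤ) + 1 := by ring
        rw [e1]
        exact ok_bad K _
  · rintro i ⟨ha, -, he⟩
    -- the start letter is at position zero
    have hi : i = 0 := by
      unfold short at ha
      by_cases h1 : i ≤ m
      · rw [if_pos h1] at ha
        by_contra hne
        rcases lt_or_gt_of_ne hne with h3 | h3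
        · simp only [bad, if_pos h3] at ha
          exact absurd ha (by simp)
        · exact bad_pos_ne_a h3 ha
      · rw [if_neg h1] at ha
        exact absurd ha (bad_pos_ne_a (by omega))
    subst hi
    have h3 : ¬ ((0 : ℤ) + ((2 ^ (K + 1) : ℕ) : ℤ) ≤ m) := by omega
    unfold short at he
    rw [if_neg h3] at he
    unfold bad at he
    rw [if_neg (by omega), if_neg (by omega), if_neg (by omega), if_neg (by omega)] at he
    exact absurd he (by simp)

theorem card_bound {K n : ℕ} (h : HasDet (X K) n) : 2 ^ (K + 1) ≤ (n + 1) ^ n := by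
  classical
  obtain ⟨V, E, _, _, G, hn, hdet, hsh⟩ := h
  have h2 := two_le K
  by_contra hcon
  push Not at hcon
  -- the token functions
  let g : ℕ → V → Option V := fun m v =>
    Nat.rec (G.nx v .a) (fun t r => r.bind (fun w => G.nx w (ul K t))) m
  have g0 : ∀ v, g 0 v = G.nx v .a := fun v => rfl
  have gs : ∀ m v, g (m + 1) v = (g m v).bind (fun w => G.nx w (ul K m)) := fun m v => rfl
  have hcard : Fintype.card (V → Option V) = (n + 1) ^ n := by
    rw [Fintype.card_fun, Fintype.card_option, hn]
  obtain ⟨m, m', hlt, heq⟩ : ∃ m m' : Fin (2 ^ (K + 1)), m < m' ∧ g m = g m' := by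
    have hni : ¬ Function.Injective (fun m : Fin (2 ^ (K + 1)) => g m) := by
      intro hinj
      have := Fintype.card_le_of_injective _ hinj
      rw [hcard, Fintype.card_fin] at this
      omega
    rw [Function.Injective] at hni
    push Not at hni
    obtain ⟨a, b, hab, hne⟩ := hni
    rcases lt_or_gt_of_ne hne with h | h
    · exact ⟨a, b, h, hab⟩
    · exact ⟨b, a, h, hab.symm⟩
  have hlt' : m.val < m'.val := hlt
  have hm' : m'.val ≤ 2 ^ (K + 1) - 1 := by omega
  have hmem := short_mem hlt' hm'
  rw [← hsh, mem_shift_iff' hdet] at hmem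
  obtain ⟨v, hv⟩ := hmem
  -- values of the shortened sequence
  have hsl : ∀ j : ℤ, j ≤ m.val → short K m m' j = bad K j := fun j hj => by
    unfold short; rw [if_pos hj]
  have hsr : ∀ j : ℤ, m.val < j → short K m m' j = bad K (j + (m'.val - m.val : ℕ)) :=
    fun j hj => by unfold short; rw [if_neg (by omega)]
  have hbad0 : bad K 0 = .a := by simp [bad]
  have hbadu : ∀ t : ℕ, t < 2 ^ (K + 1) - 1 → bad K (t + 1) = ul K t := by
    intro t ht
    unfold bad
    rw [if_neg (by omega), if_neg (by omega), if_pos (by omega)]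
    congr 1
    omega
  have hg : ∀ t : ℕ, t ≤ m.val → g t (v 0) = some (v (t + 1)) := by
    intro t
    induction t with
    | zero =>
      intro _
      rw [g0]
      have := hv 0
      rw [hsl 0 (by omega), hbad0] at this
      simpa using this
    | succ t ih =>
      intro ht
      rw [gs, ih (by omega)]
      have := hv (t + 1)
      rw [hsl _ (by omega), hbadu t (by omega)] at this
      simp only [Option.bind_some]
      rw [this]
      push_cast
      rfl
  have hgm' : g m' (v 0) = some (v (m.val + 1)) := by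
    rw [← heq]; exact hg _ le_rfl
  -- all prefixes are defined
  have hdef : ∀ t : ℕ, t ≤ m'.val → ∃ w, g (m'.val - t) (v 0) = some w := by
    intro t
    induction t with
    | zero => intro _; exact ⟨_, hgm'⟩
    | succ t ih =>
      intro ht
      obtain ⟨w, hw⟩ := ih (by omega)
      have e1 : m'.val - t = (m'.val - (t + 1)) + 1 := by omega
      rw [e1, gs] at hw
      cases hc : g (m'.val - (t + 1)) (v 0) with
      | none => rw [hc] at hw; simp at hw
      | some w' => exact ⟨w', rfl⟩
  have hdef' : ∀ t : ℕ, t ≤ m'.val → ∃ w, g t (v 0) = some w := by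
    intro t ht
    have := hdef (m'.val - t) (by omega)
    have e1 : m'.val - (m'.val - t) = t := by omega
    rwa [e1] at this
  apply bad_not_mem K
  rw [← hsh, mem_shift_iff' hdet]
  refine ⟨fun i => if i ≤ 0 then v i else if i ≤ m'.val then ((g (i - 1).toNat (v 0)).getD (v 0))
    else v (i - (m'.val - m.val : ℕ)), fun i => ?_⟩
  beta_reduce
  rcases lt_trichotomy i 0 with hi | hi | hi
  · rw [if_pos (by omega), if_pos (by omega)]
    have := hv i
    rwa [hsl i (by omega)] at this
  · subst hi
    rw [if_pos le_rfl, if_neg (by omega), if_pos (by omega), hbad0]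
    have e1 : ((0 : ℤ) + 1 - 1).toNat = 0 := by omega
    rw [e1]
    obtain ⟨w, hw⟩ := hdef' 0 (by omega)
    rw [hw, Option.getD_some, ← g0, hw]
  · rw [if_neg (by omega), if_neg (show ¬ (i + 1 ≤ 0) by omega)]
    by_cases h1 : i + 1 ≤ m'.val
    · rw [if_pos (by omega), if_pos h1]
      obtain ⟨t, rfl⟩ : ∃ t : ℕ, i = t + 1 := ⟨(i - 1).toNat, by omega⟩
      have e1 : ((t : ℤ) + 1 - 1).toNat = t := by omega
      have e2 : ((t : ℤ) + 1 + 1 - 1).toNat = t + 1 := by omega
      rw [e1, e2]
      obtain ⟨w, hw⟩ := hdef' t (by omega)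
      obtain ⟨w', hw'⟩ := hdef' (t + 1) (by omega)
      rw [hw, hw', Option.getD_some, Option.getD_some, hbadu t (by omega)]
      rw [gs, hw, Option.bind_some] at hw'
      exact hw'
    · rw [if_neg h1]
      by_cases h3 : i ≤ m'.val
      · have h4 : i = m'.val := by omega
        rw [if_pos h3]
        obtain ⟨t, ht⟩ : ∃ t : ℕ, m'.val = t + 1 := ⟨m'.val - 1, by omega⟩
        have e1 : (i - 1).toNat = t := by omega
        have e2 : i + 1 - ((m'.val - m.val : ℕ) : ℤ) = m.val + 1 := by omega
        rw [e1, e2]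
        obtain ⟨w, hw⟩ := hdef' t (by omega)
        rw [hw, Option.getD_some]
        have e3 : i = (t : ℤ) + 1 := by omega
        rw [e3, hbadu t (by omega)]
        have h5 := hgm'
        rw [ht, gs, hw, Option.bind_some] at h5
        exact h5
      · rw [if_neg h3]
        have h5 := hv (i - (m'.val - m.val : ℕ))
        rw [hsr _ (by omega)] at h5
        have e1 : i - ((m'.val - m.val : ℕ) : ℤ) + ((m'.val - m.val : ℕ) : ℤ) = i := by ring
        have e2 : i - ((m'.val - m.val : ℕ) : ℤ) + 1 = i + 1 - ((m'.val - m.val : ℕ) : ℤ) := by ring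
        rw [e1, e2] at h5
        exact h5

theorem sd_spec (K : ℕ) : HasDet (X K) (sd (X K)) := Nat.sInf_mem (s := {n | HasDet (X K) n}) ⟨_, hasDet K⟩

theorem tendsto_sd : Filter.Tendsto (fun K => sd (X K)) Filter.atTop Filter.atTop := by
  rw [Filter.tendsto_atTop]
  intro N
  rw [Filter.eventually_atTop]
  refine ⟨(N + 1) ^ N, fun K hK => ?_⟩
  by_contra hcon
  push Not at hcon
  have h1 := card_bound (sd_spec K)
  have h2 : (sd (X K) + 1) ^ sd (X K) ≤ (N + 1) ^ N :=
    calc (sd (X K) + 1) ^ sd (X K) ≤ (N + 1) ^ sd (X K) :=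
          Nat.pow_le_pow_left (by omega) _
      _ ≤ (N + 1) ^ N := Nat.pow_le_pow_right (by omega) hcon.le
  have h3 : K < 2 ^ K := Nat.lt_two_pow_self
  have h4 : 2 ^ (K + 1) = 2 * 2 ^ K := by rw [pow_succ]; ring
  omega

end Q222.MS
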