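import Pool.Agent.Q222.MS.Shift

/-!
# A deterministic presentation of `X K` with `4 (K + 1) + 1` vertices
-/

namespace Q222.MS

/-- Token states: zero, one, immune. -/
inductive TS where
  | z | o | t
deriving DecidableEq

instance : Fintype TS := ⟨{.z, .o, .t}, by intro x; cases x <;> simp⟩

variable {K : ℕ}

/-- The move of the token of bit `c` when the letter `inc j` is read. -/
def st (c : Fin (K + 1)) (s : TS) (j : Fin (K + 1)) : TS :=
  match s with
  | .t => .t
  | .z => if c < j then .t else if c = j then .o else .z
  | .o => if c < j then .z else if c = j then .t else .o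

/-- Vertices: the right vertex `none`, and for every bit a left vertex and three token states. -/
abbrev Vx (K : ℕ) := Option (Fin (K + 1) × Option TS)

/-- The partial transition function. -/
def dl : Vx K → Lt K → Option (Vx K)
  | none, .R => some none
  | some (c, none), .L => some (some (c, none))
  | some (c, none), .a => some (some (c, some .z))
  | some (c, some s), .inc j => some (some (c, some (st c s j)))
  | some (_, some .z), .e => some none
  | some (_, some .t), .e => some none
  | _, _ => none

/-- The labelled graph. -/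
def Gr (K : ℕ) : LGraph (Vx K) {p : Vx K × Lt K // (dl p.1 p.2).isSome} (Lt K) where
  src p := p.1.1
  tgt p := (dl p.1.1 p.1.2).get p.2
  lab p := p.1.2

theorem Gr_det (K : ℕ) : (Gr K).Det := by
  intro e e' h1 h2
  apply Subtype.ext
  apply Prod.ext h1 h2

theorem mem_shift_iff (x : ℤ → Lt K) :
    x ∈ (Gr K).shift ↔ ∃ v : ℤ → Vx K, ∀ i, dl (v i) (x i) = some (v (i + 1)) := by
  constructor
  · rintro ⟨e, he, hx⟩
    refine ⟨fun i => (e i).1.1, fun i => ?_⟩
    have h1 := he i
    have h2 := hx i
    simp only [Gr] at h1 h2
    show dl (e i).1.1 (x i) = some (e (i + 1)).1.1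
    rw [← h2, ← h1, Option.some_get]
  · rintro ⟨v, hv⟩
    refine ⟨fun i => ⟨(v i, x i), by simp [hv i]⟩, fun i => ?_, fun i => rfl⟩
    simp only [Gr]
    apply Option.some_injective
    rw [Option.some_get, hv i]

theorem ok_of_walk {v v' v'' : Vx K} {l l' : Lt K} (h : dl v l = some v') (h' : dl v' l' = some v'') :
    ok l l' := by
  rcases v with _ | ⟨c, _ | s⟩
  · cases l <;> simp [dl] at h
    subst h
    cases l' <;> simp [dl] at h'
    trivial
  · cases l <;> simp [dl] at h
    · subst h
      cases l' <;> simp [dl] at h' <;> trivial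
    · subst h
      cases l' <;> simp [dl] at h' <;> trivial
  · cases l with
    | L => cases s <;> simp [dl] at h
    | a => cases s <;> simp [dl] at h
    | R => cases s <;> simp [dl] at h
    | inc j =>
      have h2 : v' = some (c, some (st c s j)) := by
        cases s <;> simp only [dl, Option.some.injEq] at h <;> exact h.symm
      subst h2
      cases l' with
      | L => simp [dl] at h'
      | a => simp [dl] at h'
      | R => simp [dl] at h'
      | e => trivial
      | inc j => trivial
    | e =>
      have h2 : v' = none := by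
        cases s <;> simp [dl] at h <;> exact h.symm
      subst h2
      cases l' <;> simp [dl] at h'
      trivial

/-- The token state of a bit value. -/
def bt (b : Bool) : TS := if b then .o else .z

theorem st_bit {c : Fin (K + 1)} {m : ℕ} (h : m < 2 ^ (K + 1) - 1) :
    st c (bt (m.testBit c)) (Fin.ofNat (K + 1) (low m)) = bt ((m + 1).testBit c) := by
  have hv := ul_val h
  have hs := (low_spec m).succ c.val
  rw [hs]
  have h1 : (c < Fin.ofNat (K + 1) (low m)) ↔ c.val < low m := by
    rw [Fin.lt_def, hv]
  have h2 : (c = Fin.ofNat (K + 1) (low m)) ↔ c.val = low m := by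
    rw [Fin.ext_iff, hv]
  by_cases hlt : c.val < low m
  · have hb := (low_spec m).1 _ hlt
    rw [hb]
    simp only [bt, st, if_pos (h1.2 hlt), if_pos hlt]
    simp
  · by_cases heq : c.val = low m
    · have hb := (low_spec m).2
      rw [← heq] at hb
      rw [hb]
      have hnl : ¬ c < Fin.ofNat (K + 1) (low m) := fun hc => hlt (h1.1 hc)
      have heq' := h2.2 heq
      simp only [bt, st, if_neg hnl, if_pos heq', if_neg hlt, if_pos heq]
      simp
    · have hnl : ¬ c < Fin.ofNat (K + 1) (low m) := fun hc => hlt (h1.1 hc)
      have hne : ¬ c = Fin.ofNat (K + 1) (low m) := fun hc => heq (h2.1 hc)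
      simp only [if_neg hlt, if_neg heq]
      cases m.testBit c.val
      · simp only [bt, st, if_neg hnl, if_neg hne]
        simp
      · simp only [bt, st, if_neg hnl, if_neg hne]
        simp

theorem shift_sub (K : ℕ) : (Gr K).shift ⊆ X K := by
  intro x hx
  rw [mem_shift_iff] at hx
  obtain ⟨v, hv⟩ := hx
  refine ⟨fun i => ok_of_walk (hv i) (hv (i + 1)), ?_⟩
  rintro i ⟨ha, hu, he⟩
  have h2 := two_le K
  -- the vertex after the start letter
  have h0 := hv i
  rw [ha] at h0
  obtain ⟨c, hc⟩ : ∃ c, v (i + 1) = some (c, some .z) := by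
    rcases hvi : v i with _ | ⟨c, _ | s⟩
    · rw [hvi] at h0; simp [dl] at h0
    · rw [hvi] at h0
      simp only [dl, Option.some.injEq] at h0
      exact ⟨c, h0.symm⟩
    · rw [hvi] at h0
      cases s <;> simp [dl] at h0
  have key : ∀ m : ℕ, m ≤ 2 ^ (K + 1) - 1 → v (i + 1 + m) = some (c, some (bt (m.testBit c))) := by
    intro m
    induction m with
    | zero =>
      intro _
      simp only [Nat.cast_zero, add_zero, hc, Nat.zero_testBit]
      simp [bt]
    | succ m ih =>
      intro hm
      have h1 := ih (by omega)
      have h3 := hv (i + 1 + m)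
      rw [h1, hu m (by omega), ul] at h3
      have e1 : i + 1 + ((m + 1 : ℕ) : ℤ) = i + 1 + m + 1 := by push_cast; ring
      rw [e1]
      rw [← st_bit (by omega)]
      have h4 : dl (some (c, some (bt (m.testBit c)))) (.inc (Fin.ofNat (K + 1) (low m))) =
          some (some (c, some (st c (bt (m.testBit c)) (Fin.ofNat (K + 1) (low m))))) := by
        cases bt (m.testBit c) <;> rfl
      rw [h4] at h3
      exact (Option.some_injective _ h3).symm
  have h5 := key (2 ^ (K + 1) - 1) le_rfl
  have e1 : i + 1 + ((2 ^ (K + 1) - 1 : ℕ) : ℤ) = i + ((2 ^ (K + 1) : ℕ) : ℤ) := by omega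
  rw [e1, testBit_full c.2] at h5
  have h6 := hv (i + ((2 ^ (K + 1) : ℕ) : ℤ))
  rw [he, h5] at h6
  simp [dl, bt] at h6

/-! ### every point of `X K` is the label of a walk -/

/-- The letter read as a counter letter (with a default value). -/
def toInc : Lt K → Fin (K + 1)
  | .inc j => j
  | _ => 0

/-- The run of the token of bit `c`, started in state zero before position `p`. -/
def run (x : ℤ → Lt K) (c : Fin (K + 1)) (p : ℤ) : ℕ → TS
  | 0 => .z
  | n + 1 => st c (run x c p n) (toInc (x (p + n)))

theorem run_t {x : ℤ → Lt K} {c : Fin (K + 1)} {p : ℤ} {n m : ℕ} (h : run x c p n = .t)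
    (hm : n ≤ m) : run x c p m = .t := by
  induction m, hm using Nat.le_induction with
  | base => exact h
  | succ m _ ih => simp [run, ih, st]

/-- If all tokens are in state one after `n` letters, the letters are the counter word. -/
theorem all_one {x : ℤ → Lt K} {p : ℤ} {n : ℕ} (hinc : ∀ m : ℕ, m < n → ∃ j, x (p + m) = .inc j)
    (h1 : ∀ c, run x c p n = .o) :
    n = 2 ^ (K + 1) - 1 ∧ ∀ m : ℕ, m < n → x (p + m) = ul K m := by
  have hnt : ∀ c, ∀ m ≤ n, run x c p m ≠ .t := by
    intro c m hm ht
    have := run_t ht hm
    rw [h1 c] at this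
    exact absurd this (by decide)
  have key : ∀ m : ℕ, m ≤ n → m < 2 ^ (K + 1) ∧ (∀ c, run x c p m = bt (m.testBit c)) ∧
      (∀ m' < m, x (p + (m' : ℕ)) = ul K m') := by
    intro m
    induction m with
    | zero =>
      intro _
      refine ⟨Nat.two_pow_pos _, fun c => ?_, fun m' hm' => absurd hm' (Nat.not_lt_zero _)⟩
      simp [run, bt]
    | succ m ih =>
      intro hm
      obtain ⟨h2, h3, h4⟩ := ih (by omega)
      obtain ⟨j, hj⟩ := hinc m (by omega)
      -- the letter is valid for all tokens
      have hval : ∀ c, st c (bt (m.testBit c)) j ≠ .t := by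
        intro c hc
        apply hnt c (m + 1) hm
        simp only [run, h3 c, hj, toInc]
        exact hc
      have hlow : Low m j.val := by
        refine ⟨fun c hc => ?_, ?_⟩
        · have hcK : c < K + 1 := lt_trans hc j.2
          have := hval ⟨c, hcK⟩
          by_contra hcb
          apply this
          have hcb' : m.testBit c = false := by simpa using hcb
          have hlt : (⟨c, hcK⟩ : Fin (K + 1)) < j := hc
          simp [bt, hcb', st, hlt]
        · have := hval j
          by_contra hcb
          apply this
          have hcb' : m.testBit j.val = true := by simpa using hcb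
          simp [bt, hcb', st]
      have hlm : low m = j.val := (low_spec m).unique hlow
      have hm1 : m < 2 ^ (K + 1) - 1 := by
        by_contra hcon
        have : m = 2 ^ (K + 1) - 1 := by omega
        have h5 := hlow.2
        rw [this, testBit_full j.2] at h5
        exact absurd h5 (by decide)
      have hx : x (p + (m : ℕ)) = ul K m := by
        rw [hj, ul]
        congr 1
        apply Fin.ext
        rw [ul_val hm1, hlm]
      refine ⟨by omega, fun c => ?_, fun m' hm' => ?_⟩
      · simp only [run, h3 c, hx, ul, toInc]
        exact st_bit hm1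
      · rcases Nat.lt_succ_iff_lt_or_eq.1 hm' with h | h
        · exact h4 m' h
        · rw [h]; exact hx
  obtain ⟨h2, h3, h4⟩ := key n le_rfl
  have h5 : ∀ c < K + 1, n.testBit c = true := by
    intro c hc
    have := h3 ⟨c, hc⟩
    rw [h1] at this
    by_contra hcb
    have hcb' : n.testBit c = false := by simpa using hcb
    simp [hcb', bt] at this
  have h6 := all_bits h5
  exact ⟨by omega, h4⟩

theorem left_of_a {x : ℤ → Lt K} (hx : x ∈ X K) {p : ℤ} (hp : x p = .a ∨ x p = .L) (n : ℕ) :
    x (p - 1 - n) = .L := by
  induction n with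
  | zero =>
    have := hx.1 (p - 1)
    rw [sub_add_cancel] at this
    simp only [Nat.cast_zero, sub_zero]
    rcases hp with hp | hp <;> rw [hp] at this <;> cases hl : x (p - 1) <;> rw [hl] at this <;>
      simp [ok] at this
  | succ n ih =>
    have := hx.1 (p - 1 - n - 1)
    rw [sub_add_cancel, ih] at this
    have e1 : p - 1 - ((n + 1 : ℕ) : ℤ) = p - 1 - n - 1 := by push_cast; ring
    rw [e1]
    cases hl : x (p - 1 - n - 1) <;> rw [hl] at this <;> simp [ok] at this

/-- After the start letter there are only counter letters, an exit letter, and right fillers. -/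
theorem right_of_a {x : ℤ → Lt K} (hx : x ∈ X K) {p : ℤ} (hp : x p = .a) (n : ℕ) :
    x (p + 1 + n) ≠ .L ∧ x (p + 1 + n) ≠ .a ∧ (n = 0 → x (p + 1 + n) ≠ .R) := by
  induction n with
  | zero =>
    have := hx.1 p
    rw [hp] at this
    simp only [Nat.cast_zero, add_zero]
    cases hl : x (p + 1) <;> rw [hl] at this <;> simp [ok] at this ⊢
  | succ n ih =>
    have := hx.1 (p + 1 + n)
    have e1 : p + 1 + ((n + 1 : ℕ) : ℤ) = p + 1 + n + 1 := by push_cast; ring
    rw [e1]
    obtain ⟨h1, h2, -⟩ := ih
    cases hl' : x (p + 1 + n) <;> rw [hl'] at this h1 h2 <;>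
      cases hl : x (p + 1 + n + 1) <;> rw [hl] at this <;> simp [ok] at this h1 h2 ⊢

theorem sub_shift (K : ℕ) : X K ⊆ (Gr K).shift := by
  classical
  intro x hx
  rw [mem_shift_iff]
  by_cases hA : ∃ p, x p = .a
  · obtain ⟨p, hp⟩ := hA
    have hL : ∀ i, i < p → x i = .L := by
      intro i hi
      have := left_of_a hx (Or.inl hp) (p - 1 - i).toNat
      have e1 : p - 1 - (((p - 1 - i).toNat : ℕ) : ℤ) = i := by omega
      rwa [e1] at this
    have hR : ∀ i, p < i → x i ≠ .L ∧ x i ≠ .a := by
      intro i hi
      have := right_of_a hx hp (i - p - 1).toNat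
      have e1 : p + 1 + (((i - p - 1).toNat : ℕ) : ℤ) = i := by omega
      rw [e1] at this
      exact ⟨this.1, this.2.1⟩
    -- before an exit letter there are only counter letters
    have hinc : ∀ n : ℕ, x (p + 1 + n) = .e → ∀ m : ℕ, m < n → ∃ j, x (p + 1 + m) = .inc j := by
      intro n hn m hm
      have hback : ∀ k : ℕ, k < n → ∃ j, x (p + 1 + n - 1 - k) = .inc j := by
        intro k
        induction k with
        | zero =>
          intro hk
          have h1 := hx.1 (p + 1 + n - 1)
          rw [sub_add_cancel, hn] at h1
          have h2 := hR (p + 1 + n - 1) (by omega)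
          simp only [Nat.cast_zero, sub_zero]
          cases hl : x (p + 1 + n - 1) <;> rw [hl] at h1 h2 <;> simp [ok] at h1 h2 ⊢
        | succ k ih =>
          intro hk
          obtain ⟨j, hj⟩ := ih (by omega)
          have h1 := hx.1 (p + 1 + n - 1 - k - 1)
          rw [sub_add_cancel, hj] at h1
          have h2 := hR (p + 1 + n - 1 - k - 1) (by omega)
          have e1 : p + 1 + (n : ℤ) - 1 - ((k + 1 : ℕ) : ℤ) = p + 1 + n - 1 - k - 1 := by
            push_cast; ring
          rw [e1]
          cases hl : x (p + 1 + n - 1 - k - 1) <;> rw [hl] at h1 h2 <;> simp [ok] at h1 h2 ⊢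
      obtain ⟨j, hj⟩ := hback (n - 1 - m) (by omega)
      have e1 : p + 1 + (n : ℤ) - 1 - ((n - 1 - m : ℕ) : ℤ) = p + 1 + m := by omega
      rw [e1] at hj
      exact ⟨j, hj⟩
    -- there is at most one exit letter
    have huniq : ∀ n m : ℕ, x (p + 1 + n) = .e → x (p + 1 + m) = .e → n = m := by
      intro n m hn hm
      rcases lt_trichotomy n m with h | h | h
      · obtain ⟨j, hj⟩ := hinc m hm n h
        rw [hn] at hj
        exact absurd hj (by simp)
      · exact h
      · obtain ⟨j, hj⟩ := hinc n hn m h
        rw [hm] at hj
        exact absurd hj (by simp)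
    -- the choice of the bit
    obtain ⟨c, hc⟩ : ∃ c, ∀ n : ℕ, x (p + 1 + n) = .e → run x c (p + 1) n ≠ .o := by
      by_cases hE : ∃ n : ℕ, x (p + 1 + n) = .e
      · obtain ⟨n, hn⟩ := hE
        by_contra hcon
        push Not at hcon
        have h1 : ∀ c, run x c (p + 1) n = .o := by
          intro c
          obtain ⟨n', hn', hr⟩ := hcon c
          rw [huniq n n' hn hn']
          exact hr
        obtain ⟨h2, h3⟩ := all_one (hinc n hn) h1
        apply hx.2 p
        refine ⟨hp, ?_, ?_⟩
        · intro m hm
          exact h3 m (by omega)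
        · have h2K := two_le K
          have e1 : p + 1 + (n : ℤ) = p + ((2 ^ (K + 1) : ℕ) : ℤ) := by omega
          rw [← e1]
          exact hn
      · push Not at hE
        exact ⟨0, fun n hn => absurd hn (hE n)⟩
    refine ⟨fun i => if x i = .R then none else if i ≤ p then some (c, none) else
      some (c, some (run x c (p + 1) (i - p - 1).toNat)), fun i => ?_⟩
    rcases lt_trichotomy i p with hi | hi | hi
    · -- left of the start letter
      have h1 := hL i hi
      have h2 : x (i + 1) ≠ .R := by
        rcases lt_or_eq_of_le (show i + 1 ≤ p by omega) with h | h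
        · rw [hL _ h]; simp
        · rw [h, hp]; simp
      have h3 : i + 1 ≤ p := by omega
      have h4 : i ≤ p := by omega
      simp only [h1, if_neg h2, if_pos h3, if_pos h4]
      simp [dl]
    · subst hi
      have h2 : x (i + 1) ≠ .R := by
        have := (right_of_a hx hp 0).2.2 rfl
        simpa using this
      have h3 : ¬ (i + 1 ≤ i) := by omega
      have e1 : (i + 1 - i - 1).toNat = 0 := by omega
      simp only [hp, if_neg h2, if_neg h3, le_refl, if_true, e1, run]
      simp [dl]
    · have h1 := hR i hi
      have h3 : ¬ (i ≤ p) := by omega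
      have h4 : ¬ (i + 1 ≤ p) := by omega
      obtain ⟨n, rfl⟩ : ∃ n : ℕ, i = p + 1 + n := ⟨(i - p - 1).toNat, by omega⟩
      have e1 : (p + 1 + (n : ℤ) - p - 1).toNat = n := by omega
      have e2 : (p + 1 + (n : ℤ) + 1 - p - 1).toNat = n + 1 := by omega
      have hok := hx.1 (p + 1 + n)
      simp only [if_neg h3, if_neg h4, e1, e2]
      cases hl : x (p + 1 + n) with
      | L => exact absurd hl h1.1
      | a => exact absurd hl h1.2
      | R =>
        rw [hl] at hok
        have h5 : x (p + 1 + n + 1) = .R := by
          cases hl' : x (p + 1 + n + 1) <;> rw [hl'] at hok <;> simp [ok] at hok ⊢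
        rw [h5]
        simp [dl]
      | e =>
        rw [hl] at hok
        have h5 : x (p + 1 + n + 1) = .R := by
          cases hl' : x (p + 1 + n + 1) <;> rw [hl'] at hok <;> simp [ok] at hok ⊢
        rw [h5]
        have h6 := hc n hl
        simp only [if_true]
        rw [if_neg (by simp)]
        cases hr : run x c (p + 1) n with
        | z => rfl
        | o => exact absurd hr h6
        | t => rfl
      | inc j =>
        rw [hl] at hok
        have h5 : x (p + 1 + n + 1) ≠ .R := by
          intro h6
          rw [h6] at hok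
          simp [ok] at hok
        rw [if_neg h5, if_neg (by simp)]
        simp only [run, hl, toInc]
        cases run x c (p + 1) n <;> rfl
  · push Not at hA
    refine ⟨fun i => if x i = .R then none else if x i = .L then some (0, none) else
      some (0, some .t), fun i => ?_⟩
    have hok := hx.1 i
    beta_reduce
    cases hl : x i with
    | L =>
      rw [hl] at hok
      have h5 : x (i + 1) = .L := by
        cases hl' : x (i + 1) <;> rw [hl'] at hok <;> simp [ok] at hok ⊢
        exact absurd hl' (hA _)
      rw [h5]
      simp [dl]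
    | a => exact absurd hl (hA _)
    | e =>
      rw [hl] at hok
      have h5 : x (i + 1) = .R := by
        cases hl' : x (i + 1) <;> rw [hl'] at hok <;> simp [ok] at hok ⊢
      rw [h5]
      simp [dl]
    | R =>
      rw [hl] at hok
      have h5 : x (i + 1) = .R := by
        cases hl' : x (i + 1) <;> rw [hl'] at hok <;> simp [ok] at hok ⊢
      rw [h5]
      simp [dl]
    | inc j =>
      rw [hl] at hok
      have h5 : x (i + 1) ≠ .R := by
        intro h6
        rw [h6] at hok
        simp [ok] at hok
      have h6 : x (i + 1) ≠ .L := by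
        intro h6
        rw [h6] at hok
        simp [ok] at hok
      rw [if_neg h5, if_neg h6, if_neg (by simp), if_neg (by simp)]
      simp [dl, st]

theorem card_Vx (K : ℕ) : Fintype.card (Vx K) = 4 * (K + 1) + 1 := by
  have : Fintype.card TS = 3 := by decide
  simp [Vx, this]
  ring

theorem hasDet (K : ℕ) : HasDet (X K) (4 * (K + 1) + 1) := by
  classical
  refine ⟨Vx K, {p : Vx K × Lt K // (dl p.1 p.2).isSome}, inferInstance, inferInstance, Gr K,
    card_Vx K, Gr_det K, ?_⟩
  exact Set.Subset.antisymm (shift_sub K) (sub_shift K)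

theorem sd_le (K : ℕ) : sd (X K) ≤ 4 * (K + 1) + 1 := Nat.sInf_le (hasDet K)

end Q222.MS
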