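import Pool.Agent.Q222.MS.Defs
import Pool.Agent.Q222.MS.Bits

/-!
# The shifts `X K` (one forbidden word of length `2^(K+1)+1`)
-/

namespace Q222.MS

/-- The alphabet: left and right fillers, a start and an exit letter, and `K + 1` counter letters. -/
inductive Lt (K : ℕ) where
  | L | a | e | R
  | inc (j : Fin (K + 1))
deriving DecidableEq, Fintype

variable {K : ℕ}

/-- The allowed pairs of consecutive letters. -/
def ok : Lt K → Lt K → Prop
  | .L, .L => True
  | .L, .a => True
  | .a, .inc _ => True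
  | .a, .e => True
  | .inc _, .inc _ => True
  | .inc _, .e => True
  | .e, .R => True
  | .R, .R => True
  | _, _ => False

/-- The letter read when the counter has value `m`. -/
noncomputable def ul (K m : ℕ) : Lt K := .inc (Fin.ofNat (K + 1) (low m))

/-- The forbidden word occurs in `x` at position `i`. -/
def W (x : ℤ → Lt K) (i : ℤ) : Prop :=
  x i = .a ∧ (∀ m : ℕ, m < 2 ^ (K + 1) - 1 → x (i + 1 + m) = ul K m) ∧
    x (i + (2 ^ (K + 1) : ℕ)) = .e

/-- The shift `X K`. -/
def X (K : ℕ) : Set (ℤ → Lt K) := {x | (∀ i, ok (x i) (x (i + 1))) ∧ ∀ i, ¬ W x i}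

theorem ul_val {m : ℕ} (h : m < 2 ^ (K + 1) - 1) : (Fin.ofNat (K + 1) (low m)).val = low m := by
  have := low_lt h
  simp only [Fin.ofNat]
  exact Nat.mod_eq_of_lt this

/-! ### `X K` is an SFT -/

theorem factor_eq_iff {A : Type} {x y : ℤ → A} {i j : ℤ} {n : ℕ} :
    factor x i n = factor y j n ↔ ∀ t : ℕ, t < n → x (i + t) = y (j + t) := by
  unfold factor
  rw [List.map_inj_left]
  simp

theorem length_factor {A : Type} (x : ℤ → A) (i : ℤ) (n : ℕ) : (factor x i n).length = n := by
  simp [factor]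

theorem two_le (K : ℕ) : 2 ≤ 2 ^ (K + 1) := by
  have := Nat.one_le_two_pow (n := K)
  rw [pow_succ]
  omega

theorem W_congr {x y : ℤ → Lt K} {i j : ℤ}
    (h : ∀ t : ℕ, t < 2 ^ (K + 1) + 1 → x (i + t) = y (j + t)) (hx : W x i) : W y j := by
  have h2 := two_le K
  refine ⟨?_, ?_, ?_⟩
  · have := h 0 (by omega)
    simp only [Nat.cast_zero, add_zero] at this
    rw [← this]
    exact hx.1
  · intro m hm
    have := h (m + 1) (by omega)
    have e1 : i + ((m + 1 : ℕ) : ℤ) = i + 1 + m := by push_cast; ring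
    have e2 : j + ((m + 1 : ℕ) : ℤ) = j + 1 + m := by push_cast; ring
    rw [e1, e2] at this
    rw [← this]
    exact hx.2.1 m hm
  · have := h (2 ^ (K + 1)) (by omega)
    rw [← this]
    exact hx.2.2

theorem isStep (K : ℕ) : IsStep (X K) (2 ^ (K + 1)) := by
  have h2 := two_le K
  refine ⟨{w | w.length = 2 ^ (K + 1) + 1 ∧ ∀ x ∈ X K, ∀ i, factor x i w.length ≠ w}, ?_, ?_⟩
  · intro w hw
    exact hw.1
  · apply Set.Subset.antisymm
    · intro x hx w hw i
      exact hw.2 x hx i
    · intro x hx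
      have key : ∀ i : ℤ, ∃ y ∈ X K, ∃ j : ℤ,
          ∀ t : ℕ, t < 2 ^ (K + 1) + 1 → x (i + t) = y (j + t) := by
        intro i
        by_contra hcon
        push Not at hcon
        apply hx (factor x i (2 ^ (K + 1) + 1)) _ i
        · rw [length_factor]
        · refine ⟨length_factor _ _ _, ?_⟩
          intro y hy j he
          rw [length_factor] at he
          obtain ⟨t, ht, hne⟩ := hcon y hy j
          exact hne ((factor_eq_iff.1 he t ht).symm)
      refine ⟨fun i => ?_, fun i hW => ?_⟩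
      · obtain ⟨y, hy, j, hj⟩ := key i
        have h0 := hj 0 (by omega)
        have h1 := hj 1 (by omega)
        simp only [Nat.cast_zero, add_zero, Nat.cast_one] at h0 h1
        rw [h0, h1]
        exact hy.1 j
      · obtain ⟨y, hy, j, hj⟩ := key i
        exact hy.2 j (W_congr hj hW)

/-! ### the minimum step -/

/-- The sequence `L^∞ a u₀ e R^∞`. -/
noncomputable def bad (K : ℕ) : ℤ → Lt K := fun j =>
  if j < 0 then .L else if j = 0 then .a else if j < (2 ^ (K + 1) : ℕ) then ul K (j - 1).toNat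
    else if j = (2 ^ (K + 1) : ℕ) then .e else .R

theorem bad_not_mem (K : ℕ) : bad K ∉ X K := by
  have h2 := two_le K
  intro h
  apply h.2 0
  refine ⟨by simp [bad], ?_, ?_⟩
  · intro m hm
    have e1 : ¬ ((0 : ℤ) + 1 + m < 0) := by omega
    have e2 : ¬ ((0 : ℤ) + 1 + m = 0) := by omega
    have e3 : (0 : ℤ) + 1 + m < ((2 ^ (K + 1) : ℕ) : ℤ) := by omega
    simp only [bad, if_neg e1, if_neg e2, if_pos e3]
    congr 1
    omega
  · have e1 : ¬ ((0 : ℤ) + ((2 ^ (K + 1) : ℕ) : ℤ) < 0) := by omega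
    have e2 : ¬ ((0 : ℤ) + ((2 ^ (K + 1) : ℕ) : ℤ) = 0) := by omega
    have e3 : ¬ ((0 : ℤ) + ((2 ^ (K + 1) : ℕ) : ℤ) < ((2 ^ (K + 1) : ℕ) : ℤ)) := by omega
    have e4 : ((0 : ℤ) + ((2 ^ (K + 1) : ℕ) : ℤ) = ((2 ^ (K + 1) : ℕ) : ℤ)) := by omega
    simp only [bad, if_neg e1, if_neg e2, if_neg e3, if_pos e4]

/-- Left part replaced by counter letters. -/
noncomputable def badl (K : ℕ) : ℤ → Lt K := fun j => if j ≤ 0 then .inc 0 else bad K j

/-- Right part replaced by counter letters. -/
noncomputable def badr (K : ℕ) : ℤ → Lt K :=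
  fun j => if j < (2 ^ (K + 1) : ℕ) then bad K j else .inc 0

theorem ok_bad (K : ℕ) (i : ℤ) : ok (bad K i) (bad K (i + 1)) := by
  have h2 := two_le K
  unfold bad
  by_cases h1 : i < 0
  · by_cases h3 : i + 1 < 0
    · simp only [if_pos h1, if_pos h3, ok]
    · have : i + 1 = 0 := by omega
      simp only [if_pos h1, this, lt_irrefl, if_false, if_true, ok]
  · by_cases h3 : i = 0
    · subst h3
      have e3 : (0 : ℤ) + 1 < ((2 ^ (K + 1) : ℕ) : ℤ) := by omega
      have e1 : ¬ ((0 : ℤ) + 1 < 0) := by omega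
      have e2 : ¬ ((0 : ℤ) + 1 = 0) := by omega
      simp only [lt_irrefl, if_false, if_true, if_neg e1, if_neg e2, if_pos e3, ul, ok]
    · by_cases h4 : i < ((2 ^ (K + 1) : ℕ) : ℤ)
      · have e1 : ¬ (i + 1 < 0) := by omega
        have e2 : ¬ (i + 1 = 0) := by omega
        by_cases h5 : i + 1 < ((2 ^ (K + 1) : ℕ) : ℤ)
        · simp only [if_neg h1, if_neg h3, if_pos h4, if_neg e1, if_neg e2, if_pos h5, ul, ok]
        · have e4 : i + 1 = ((2 ^ (K + 1) : ℕ) : ℤ) := by omega
          simp only [if_neg h1, if_neg h3, if_pos h4, if_neg e1, if_neg e2, if_neg h5, if_pos e4,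
            ul, ok]
      · have e1 : ¬ (i + 1 < 0) := by omega
        have e2 : ¬ (i + 1 = 0) := by omega
        have e3 : ¬ (i + 1 < ((2 ^ (K + 1) : ℕ) : ℤ)) := by omega
        have e4 : ¬ (i + 1 = ((2 ^ (K + 1) : ℕ) : ℤ)) := by omega
        by_cases h5 : i = ((2 ^ (K + 1) : ℕ) : ℤ)
        · simp only [if_neg h1, if_neg h3, if_neg h4, if_pos h5, if_neg e1, if_neg e2, if_neg e3,
            if_neg e4, ok]
        · simp only [if_neg h1, if_neg h3, if_neg h4, if_neg h5, if_neg e1, if_neg e2, if_neg e3,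
            if_neg e4, ok]

theorem bad_pos_ne_a {K : ℕ} {i : ℤ} (h : 0 < i) : bad K i ≠ .a := by
  have e1 : ¬ (i < 0) := by omega
  have e2 : ¬ (i = 0) := by omega
  unfold bad
  simp only [if_neg e1, if_neg e2]
  split_ifs <;> simp [ul]

theorem bad_lt_ne_e {K : ℕ} {i : ℤ} (h : i < ((2 ^ (K + 1) : ℕ) : ℤ)) : bad K i ≠ .e := by
  unfold bad
  simp only [if_pos h]
  split_ifs <;> simp [ul]

theorem badl_mem (K : ℕ) : badl K ∈ X K := by
  have h2 := two_le K
  refine ⟨fun i => ?_, fun i hW => ?_⟩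
  · unfold badl
    by_cases h1 : i + 1 ≤ 0
    · have h3 : i ≤ 0 := by omega
      simp only [if_pos h1, if_pos h3, ok]
    · by_cases h3 : i ≤ 0
      · have h4 : i = 0 := by omega
        subst h4
        have e3 : (0 : ℤ) + 1 < ((2 ^ (K + 1) : ℕ) : ℤ) := by omega
        have e1 : ¬ ((0 : ℤ) + 1 < 0) := by omega
        have e2 : ¬ ((0 : ℤ) + 1 = 0) := by omega
        simp only [le_refl, if_true, if_neg h1, bad, if_neg e1, if_neg e2, if_pos e3, ul, ok]
      · simp only [if_neg h1, if_neg h3]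
        exact ok_bad K i
  · have := hW.1
    unfold badl at this
    by_cases h1 : i ≤ 0
    · simp [if_pos h1] at this
    · rw [if_neg h1] at this
      exact bad_pos_ne_a (by omega) this

theorem badr_mem (K : ℕ) : badr K ∈ X K := by
  have h2 := two_le K
  refine ⟨fun i => ?_, fun i hW => ?_⟩
  · unfold badr
    by_cases h1 : i + 1 < ((2 ^ (K + 1) : ℕ) : ℤ)
    · have h3 : i < ((2 ^ (K + 1) : ℕ) : ℤ) := by omega
      simp only [if_pos h1, if_pos h3]
      exact ok_bad K i
    · by_cases h3 : i < ((2 ^ (K + 1) : ℕ) : ℤ)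
      · have e1 : ¬ (i < 0) := by omega
        have e2 : ¬ (i = 0) := by omega
        simp only [if_pos h3, if_neg h1, bad, if_neg e1, if_neg e2, ul, ok]
      · simp only [if_neg h1, if_neg h3, ok]
  · have := hW.2.2
    unfold badr at this
    by_cases h1 : i + ((2 ^ (K + 1) : ℕ) : ℤ) < ((2 ^ (K + 1) : ℕ) : ℤ)
    · rw [if_pos h1] at this
      exact bad_lt_ne_e h1 this
    · rw [if_neg h1] at this
      exact absurd this (by simp)

theorem not_isStep {K M : ℕ} (hM : M < 2 ^ (K + 1)) : ¬ IsStep (X K) M := by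
  rintro ⟨F, hF, hX⟩
  apply bad_not_mem K
  rw [hX]
  intro w hw i he
  have hlen := hF w hw
  by_cases hi : 0 < i
  · have hm := badl_mem K
    rw [hX] at hm
    apply hm w hw i
    rw [← he, length_factor, factor_eq_iff]
    intro t _
    have : ¬ (i + (t : ℤ) ≤ 0) := by omega
    simp only [badl, if_neg this]
  · have hm := badr_mem K
    rw [hX] at hm
    apply hm w hw i
    rw [← he, length_factor, factor_eq_iff]
    intro t ht
    have : i + (t : ℤ) < ((2 ^ (K + 1) : ℕ) : ℤ) := by omega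
    simp only [badr, if_pos this]

theorem minStep_X (K : ℕ) : minStep (X K) = 2 ^ (K + 1) := by
  apply le_antisymm
  · exact Nat.sInf_le (isStep K)
  · refine le_csInf (s := {M | IsStep (X K) M}) ⟨_, isStep K⟩ ?_
    intro M hM
    by_contra h
    exact not_isStep (K := K) (M := M) (by omega) hM

end Q222.MS
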